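import Pool.Agent.H695.NilFreeAlg

set_option autoImplicit false

namespace Pool.Agent.H695.Old.S01920

/-- The negation of the preceding statement: For any field and any variety of anticommutative algebras given by identities: if for some n at least 2 all long enough products of any n elements vanish uniformly, then every finitely generated algebra of the variety is nilpotent. -/
theorem notMain :
    ¬ (∀ (K : Type) [Field K] (S : Set (MonoidAlgebra K (FreeMagma ℕ))) (n : ℕ), 2 ≤ n →
      (∃ c : ℕ, ∀ (A : Type) [NonUnitalNonAssocRing A] [Module K A]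
          [IsScalarTower K A A] [SMulCommClass K A A],
          (∀ a : A, a * a = 0) →
          (∀ f ∈ S, ∀ v : ℕ → A, MonoidAlgebra.liftMagma K (FreeMagma.lift v) f = 0) →
          ∀ (x : Fin n → A) (w : FreeMagma (Fin n)), c ≤ w.length → FreeMagma.lift x w = 0) →
      ∀ (A : Type) [NonUnitalNonAssocRing A] [Module K A]
          [IsScalarTower K A A] [SMulCommClass K A A],
          (∀ a : A, a * a = 0) →
          (∀ f ∈ S, ∀ v : ℕ → A, MonoidAlgebra.liftMagma K (FreeMagma.lift v) f = 0) →
          ∀ (m : ℕ) (x : Fin m → A), ∃ c : ℕ,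
            ∀ w : FreeMagma (Fin m), c ≤ w.length → FreeMagma.lift x w = 0) := by
  intro H
  have h1 := H Pool.Agent.H695.NilFree.K Pool.Agent.H695.NilFree.Ident 2 le_rfl
    Pool.Agent.H695.NilFree.two_generated
    Pool.Agent.H695.NilFree.A Pool.Agent.H695.NilFree.anticomm
    Pool.Agent.H695.NilFree.ident_holds 5 Pool.Agent.H695.NilFree.gens
  exact Pool.Agent.H695.NilFree.not_nilpotent h1

end Pool.Agent.H695.Old.S01920
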